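import Pool.Agent.Lib.MP_742c35_co.Main

namespace Pool.Agent.Results.MP_742c35_co.FiniteDifference

open Pool.Agent.SymPoly

/-- For every finite subgroup `G` of the orthogonal group `O(3)`, all but finitely many
f-vectors of `G`-invariant 3-polytopes are f-vectors of 3-polytopes whose linear symmetry group
is exactly `G`: the set `F(G) \ Fbar(G)` is finite. -/
theorem result (G : Subgroup (Matrix.orthogonalGroup (Fin 3) ℝ)) (hG : Finite G) :
    (FG G \ FGbar G).Finite :=
  finite_FG_diff G hG

end Pool.Agent.Results.MP_742c35_co.FiniteDifference
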